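import Mathlib
import Pool.Agent.H96.DC.GPUniv

set_option autoImplicit false

/-!
# Extensions of graph products by a group of order two

Q1 asks whether a group `Γ` with a normal subgroup of order two and sofic quotient is sofic.  Let
the quotient `P` be the graph product of arbitrary groups `A v`, `v ∈ V`, over an arbitrary graph
(finite or infinite; for example a free product or a direct sum).  We show that `Γ` is sofic if and
only if `P` is sofic and the preimages in `Γ` of all the vertex groups are sofic.  The group `Γ`
need not be a graph product or a quotient of one: elements of adjacent vertex groups may fail to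
commute in `Γ`.
-/

namespace Pool.Agent.Results.MP_67b2ac_al.GraphProducts

/-- `Γ` is sofic: the definition in the frozen statement. -/
def IsSofic (Γ : Type) [Group Γ] : Prop :=
  ∀ (F : Finset Γ) (ε : ℝ), 0 < ε →
    ∃ n : ℕ, ∃ φ : Γ → Equiv.Perm (Fin n),
      (∀ g ∈ F, ∀ h ∈ F,
        (((Finset.univ.filter (fun i => φ (g * h) i ≠ (φ g * φ h) i)).card : ℝ) < ε * n)) ∧
      (∀ g ∈ F, g ≠ 1 →
        (1 - ε) * n ≤ ((Finset.univ.filter (fun i => φ g i ≠ i)).card : ℝ))

/-- Every extension of `Q` by a group of order two is sofic. -/
def CoversSofic (Q : Type) [Group Q] : Prop :=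
  ∀ (Γ : Type) [Group Γ] (π : Γ →* Q), Function.Surjective π → Nat.card π.ker = 2 → IsSofic Γ

/-- `P`, with the homomorphisms `ι v : A v → P`, is the graph product of the groups `A v` over the
graph `Δ`: the images of adjacent vertex groups commute, and `P` is universal with this property. -/
structure IsGraphProduct {V : Type} (Δ : SimpleGraph V) {A : V → Type} [∀ v, Group (A v)]
    {P : Type} [Group P] (ι : ∀ v, A v →* P) : Prop where
  comm : ∀ v w, Δ.Adj v w → ∀ a b, Commute (ι v a) (ι w b)
  universal : ∀ (H : Type) [Group H] (f : ∀ v, A v →* H),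
    (∀ v w, Δ.Adj v w → ∀ a b, Commute (f v a) (f w b)) → ∃! F : P →* H, ∀ v, F.comp (ι v) = f v

theorem result {V : Type} (Δ : SimpleGraph V) (A : V → Type) [∀ v, Group (A v)] (P : Type)
    [Group P] (ι : ∀ v, A v →* P) (hP : IsGraphProduct Δ ι) :
    -- (1) one extension `Γ` of `P` by a group of order two
    (∀ (Γ : Type) [Group Γ] (π : Γ →* P), Function.Surjective π → Nat.card π.ker = 2 →
      (IsSofic Γ ↔ IsSofic P ∧ ∀ v, IsSofic ((ι v).range.comap π))) ∧
    -- (2) all extensions of `P` by a group of order two
    (CoversSofic P ↔ IsSofic P ∧ ∀ v, CoversSofic (A v)) :=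
  Pool.Agent.H96.DC.gp_univ V Δ A P ι hP.comm hP.universal

end Pool.Agent.Results.MP_67b2ac_al.GraphProducts
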