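import Mathlib
import Pool.Agent.Helper70.Sofic.TF

set_option autoImplicit false

/-!
# How far the question for kernels of order two reaches

Q1 of the problem asks whether a group `G` with a normal subgroup `N` of order two and sofic
quotient `G / N` is sofic.  We show that this is equivalent to

* the same for finitely generated `G` such that `N` lies in every subgroup of finite index;
* the same for all finite kernels whose centre is a 2-group;
* the same for all finitely generated kernels that are residually (finite with centre a 2-group),
  for example finitely generated free groups, free abelian groups, surface groups;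
* the same for all kernels that are separated by subgroups `M` normal in `G` with `N / M` finite
  with centre a 2-group.
-/

namespace Pool.Agent.Results.MP_67b2ac_al.KernelsWithTwoCentre

/-- The definition of soficity used in the frozen statement of MP_67b2ac_al. -/
def IsSofic (G : Type) [Group G] : Prop :=
  ∀ (F : Finset G) (ε : ℝ), 0 < ε →
      ∃ n : ℕ, ∃ φ : G → Equiv.Perm (Fin n),
        (∀ g ∈ F, ∀ h ∈ F,
          (((Finset.univ.filter (fun i => φ (g * h) i ≠ (φ g * φ h) i)).card : ℝ) < ε * n)) ∧
        (∀ g ∈ F, g ≠ 1 →
          (1 - ε) * n ≤ ((Finset.univ.filter (fun i => φ g i ≠ i)).card : ℝ))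

/-- Q1 of MP_67b2ac_al. -/
def TwoExt : Prop :=
  ∀ (G : Type) [Group G] (N : Subgroup G) [N.Normal], Nat.card N = 2 →
    IsSofic (G ⧸ N) → IsSofic G

/-- Q1 for finitely generated groups in which every finite index subgroup contains `N`. -/
def TwoExtDeligne : Prop :=
  ∀ (G : Type) [Group G] [Group.FG G] (N : Subgroup G) [N.Normal], Nat.card N = 2 →
    (∀ H : Subgroup G, H.FiniteIndex → N ≤ H) → IsSofic (G ⧸ N) → IsSofic G

/-- Extensions with a finite kernel whose centre is a 2-group. -/
def FiniteExt : Prop :=
  ∀ (G : Type) [Group G] (K : Subgroup G) [K.Normal] [Finite K],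
    IsPGroup 2 (Subgroup.center K) → IsSofic (G ⧸ K) → IsSofic G

/-- `N` is residually (finite with centre a 2-group). -/
def ResTwoCentre (N : Type) [Group N] : Prop :=
  ∀ x : N, x ≠ 1 → ∃ (P : Type) (_ : Group P) (_ : Finite P) (f : N →* P),
    Function.Surjective f ∧ IsPGroup 2 (Subgroup.center P) ∧ f x ≠ 1

/-- Extensions with a finitely generated kernel that is residually (finite with centre a
2-group). -/
def FgExt : Prop :=
  ∀ (G : Type) [Group G] (N : Subgroup G) [N.Normal] [Group.FG N],
    ResTwoCentre N → IsSofic (G ⧸ N) → IsSofic G

/-- The kernel `N` is separated by subgroups that are normal in `G` and have finite quotient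
with centre a 2-group. -/
def InvRes {G : Type} [Group G] (N : Subgroup G) : Prop :=
  ∀ x ∈ N, x ≠ 1 → ∃ (M : Subgroup G) (_ : M.Normal), M ≤ N ∧ x ∉ M ∧
    Finite (N ⧸ M.subgroupOf N) ∧ IsPGroup 2 (Subgroup.center (N ⧸ M.subgroupOf N))

/-- Extensions with a kernel that is residually (finite with centre a 2-group) through subgroups
that are normal in the whole group. -/
def InvExt : Prop :=
  ∀ (G : Type) [Group G] (N : Subgroup G) [N.Normal],
    InvRes N → IsSofic (G ⧸ N) → IsSofic G

theorem result : List.TFAE [TwoExt, TwoExtDeligne, FiniteExt, FgExt, InvExt] :=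
  Pool.Agent.Helper70.Sofic.TF.main

end Pool.Agent.Results.MP_67b2ac_al.KernelsWithTwoCentre
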