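import Mathlib
import Pool.Agent.H32.SQ.Final

set_option autoImplicit false

/-!
# Reduction of the question to double covers of simple groups

Q1 of the problem asks whether a group `G` with a normal subgroup `N` of order two and sofic
quotient `G / N` is sofic.  We embed every countable `G` of this kind into a countable group `E`
of this kind, `N` onto the centre of `E`, such that `E` modulo its centre is simple and any two
elements of infinite order of `E` are conjugate.  So Q1 is equivalent to the same question for the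
groups `E`.
-/

namespace Pool.Agent.Results.MP_67b2ac_al.SimpleQuotient

/-- `G` is sofic: the definition in the frozen statement. -/
def IsSofic (G : Type) [Group G] : Prop :=
  ∀ (F : Finset G) (ε : ℝ), 0 < ε →
    ∃ n : ℕ, ∃ φ : G → Equiv.Perm (Fin n),
      (∀ g ∈ F, ∀ h ∈ F,
        (((Finset.univ.filter (fun i => φ (g * h) i ≠ (φ g * φ h) i)).card : ℝ) < ε * n)) ∧
      (∀ g ∈ F, g ≠ 1 →
        (1 - ε) * n ≤ ((Finset.univ.filter (fun i => φ g i ≠ i)).card : ℝ))

/-- Q1 of the problem. -/
def TwoExt : Prop :=
  ∀ (G : Type) [Group G] (N : Subgroup G) [N.Normal], Nat.card N = 2 →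
    IsSofic (G ⧸ N) → IsSofic G

/-- The centre `Z` of `E` has order two; `E / Z` is simple, and even each element of `E` is a product
of four conjugates of `g` and `g⁻¹`, for each `g` outside `Z`; each element of `E` is a commutator;
any two elements of infinite order of `E` are conjugate. -/
structure SimpleCover (E : Type) [Group E] : Prop where
  card_center : Nat.card (Subgroup.center E) = 2
  simple : IsSimpleGroup (E ⧸ Subgroup.center E)
  four : ∀ g : E, g ∉ Subgroup.center E → ∀ h : E, ∃ x y v w : E,
    h = (x * g * x⁻¹) * (y * g⁻¹ * y⁻¹) * (v * g * v⁻¹) * (w * g⁻¹ * w⁻¹)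
  comm : ∀ g : E, ∃ x y : E, g = x * y * x⁻¹ * y⁻¹
  conj : ∀ a b : E, ¬ IsOfFinOrder a → ¬ IsOfFinOrder b → IsConj a b

/-- Q1 for countable groups `E` with `SimpleCover E`, and the centre of `E` in place of `N`. -/
def TwoExtSimple : Prop :=
  ∀ (E : Type) [Group E] [Countable E], SimpleCover E →
    IsSofic (E ⧸ Subgroup.center E) → IsSofic E

theorem result :
    (∀ (G : Type) [Group G] [Countable G] (N : Subgroup G) [N.Normal], Nat.card N = 2 →
      IsSofic (G ⧸ N) → ∃ (E : Type) (_ : Group E) (f : G →* E), Countable E ∧ SimpleCover E ∧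
        IsSofic (E ⧸ Subgroup.center E) ∧ Function.Injective f ∧ N.map f = Subgroup.center E) ∧
    (TwoExt ↔ TwoExtSimple) := by
  have h0 : ∀ (G : Type) [Group G] [Countable G] (N : Subgroup G) [N.Normal], Nat.card N = 2 →
      IsSofic (G ⧸ N) → ∃ (E : Type) (_ : Group E) (f : G →* E), Countable E ∧ SimpleCover E ∧
        IsSofic (E ⧸ Subgroup.center E) ∧ Function.Injective f ∧ N.map f = Subgroup.center E := by
    intro G _ _ N _ hN hS
    obtain ⟨E, i, f, h0, h1, h2, h3, h4, h5, h6, h7, h8⟩ := H32.SQ.exists_embed N hN hS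
    exact ⟨E, i, f, h0, ⟨h3, h4, h5, h6, h7⟩, h8, h1, h2⟩
  refine ⟨h0, ?_, ?_⟩
  · intro h E _ _ hE hS
    exact h E (Subgroup.center E) hE.card_center hS
  · intro h
    apply Pool.Agent.Helper70.Sofic.twoExt_of_deligne
    intro G _ _ N _ hN _ hS
    have hc : Countable G := H32.SQ.fg_countable
    obtain ⟨E, _, f, _, h2, h3, h4, _⟩ := h0 G N hN hS
    exact Pool.Agent.Helper70.Sofic.isSofic_of_injective f h4 (h E h2 h3)

end Pool.Agent.Results.MP_67b2ac_al.SimpleQuotient
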