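import Mathlib
import Pool.Agent.H96.DC.WrOne

set_option autoImplicit false

/-!
# Extensions of wreath products by a group of order two

Q1 asks whether a group `Γ` with a normal subgroup of order two and sofic quotient is sofic.  Let
the quotient be the restricted wreath product `(⨁_B A) ⋊ B` of two arbitrary groups.  We show that
`Γ` is sofic if and only if the preimages in `Γ` of `A` (the copy of `A` at the place `1`) and of
`B` are sofic.  (These are extensions of `A` and of `B`; the preimage of `⨁_B A` need not be a
product or a quotient of a product of extensions of `A`: different copies of `A` may fail to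
commute in `Γ`.)

`RegularWreathProduct A B` is Mathlib's unrestricted wreath product: the pairs of a function
`left : B → A` and an element `right : B`, and `(x y).left b = x.left b * y.left (x.right⁻¹ b)`.
-/

namespace Pool.Agent.Results.MP_67b2ac_al.WreathProducts

/-- `Γ` is sofic: the definition in the frozen statement. -/
def IsSofic (Γ : Type) [Group Γ] : Prop :=
  ∀ (F : Finset Γ) (ε : ℝ), 0 < ε →
    ∃ n : ℕ, ∃ φ : Γ → Equiv.Perm (Fin n),
      (∀ g ∈ F, ∀ h ∈ F,
        (((Finset.univ.filter (fun i => φ (g * h) i ≠ (φ g * φ h) i)).card : ℝ) < ε * n)) ∧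
      (∀ g ∈ F, g ≠ 1 →
        (1 - ε) * n ≤ ((Finset.univ.filter (fun i => φ g i ≠ i)).card : ℝ))

/-- Every extension of `Q` by a group of order two is sofic. -/
def CoversSofic (Q : Type) [Group Q] : Prop :=
  ∀ (Γ : Type) [Group Γ] (π : Γ →* Q), Function.Surjective π → Nat.card π.ker = 2 → IsSofic Γ

/-- `Γ` is an extension by a group of order two of the restricted wreath product of `A` by `B`: the
kernel of `π` has order two, and its image consists of the elements of the unrestricted wreath
product which are trivial at almost all places. -/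
structure IsExtension {A B Γ : Type} [Group A] [Group B] [Group Γ]
    (π : Γ →* RegularWreathProduct A B) : Prop where
  card_ker : Nat.card π.ker = 2
  range : ∀ x, x ∈ π.range ↔ {b | x.left b ≠ 1}.Finite

theorem result (A B : Type) [Group A] [Group B] :
    -- (1) one extension `Γ`
    (∀ (Γ : Type) [Group Γ] (π : Γ →* RegularWreathProduct A B), IsExtension π →
      ∀ K L : Subgroup Γ,
        -- `K` is the preimage of `A`, the elements `(f, 1)` with `f` trivial outside `1`
        (∀ γ, γ ∈ K ↔ (π γ).right = 1 ∧ ∀ b, b ≠ 1 → (π γ).left b = 1) →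
        -- `L` is the preimage of `B`, the elements `(1, b)`
        (∀ γ, γ ∈ L ↔ (π γ).left = 1) →
        (IsSofic Γ ↔ IsSofic K ∧ IsSofic L)) ∧
    -- (2) all extensions
    ((∀ (Γ : Type) [Group Γ] (π : Γ →* RegularWreathProduct A B), IsExtension π → IsSofic Γ) ↔
      CoversSofic A ∧ CoversSofic B) := by
  refine ⟨fun _ _ π h K L hK hL => Pool.Agent.H96.DC.wr_one π h.range h.card_ker K L hK hL, ?_⟩
  refine Iff.trans ⟨?_, ?_⟩ (Pool.Agent.H96.DC.wr_two A B)
  · intro h Γ _ π hk hr
    exact h Γ π ⟨hk, hr⟩
  · intro h Γ _ π hπ
    exact h Γ π hπ.card_ker hπ.range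

end Pool.Agent.Results.MP_67b2ac_al.WreathProducts
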